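import Pool.Agent.Helper17.SA.St2

/-!
# SA module RIG: soundness of the search
-/

set_option autoImplicit false

namespace Pool.Agent.Helper89.SA

open Equiv Pool.Agent.Helper17.SA

/-- the values of a permutation as a function on the natural numbers -/
def val {m : ℕ} (y : Perm (Fin m)) (s : ℕ) : ℕ := if h : s < m then (y ⟨s, h⟩ : ℕ) else 0

theorem val_lt {m : ℕ} (y : Perm (Fin m)) {s : ℕ} (h : s < m) : val y s < m := by
  simp only [val, h, dif_pos]
  exact (y ⟨s, h⟩).isLt

theorem val_eq {m : ℕ} (y : Perm (Fin m)) {s : ℕ} (h : s < m) : val y s = (y ⟨s, h⟩ : ℕ) := by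
  simp only [val, h, dif_pos]

theorem lst_getD {m : ℕ} (x : Perm (Fin m)) {s : ℕ} (h : s < m) :
    (lst m x).getD s 0 = (x ⟨s, h⟩ : ℕ) := by
  simp [lst, List.getD, h]

/-- the list of images of `t - 1, …, 0` -/
def im {m : ℕ} (y : Perm (Fin m)) (t : ℕ) : List ℕ := ((List.range t).map (val y)).reverse

theorem im_length {m : ℕ} (y : Perm (Fin m)) (t : ℕ) : (im y t).length = t := by
  simp [im]

theorem im_succ {m : ℕ} (y : Perm (Fin m)) (t : ℕ) : im y (t + 1) = val y t :: im y t := by
  simp [im, List.range_succ]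

theorem im_getD {m : ℕ} (y : Perm (Fin m)) {t s : ℕ} (h : s < t) :
    (im y t).getD (t - 1 - s) 0 = val y s := by
  have h1 : t - 1 - s < t := by omega
  have h2 : t - 1 - (t - 1 - s) = s := by omega
  simp [im, List.getD, h1, h2]

theorem okk_val {m : ℕ} (x y : Perm (Fin m)) (hy : y ∈ Q0 m) (hxy : x * y * x⁻¹ ∈ Q0 m) {t : ℕ}
    (ht : t < m) : okk (lst m x) (im y t) (val y t) = true := by
  simp only [okk, im_length, List.all_eq_true, List.mem_range, Bool.and_eq_true, beq_iff_eq]
  intro s hs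
  have hsm : s < m := hs.trans ht
  rw [im_getD y hs]
  have hys := val_lt y hsm
  have hyt := val_lt y ht
  refine ⟨?_, ?_⟩
  · rw [val_eq y hsm, val_eq y ht]
    exact hy ⟨s, hsm⟩ ⟨t, ht⟩
  · rw [lst_getD x hys, lst_getD x hyt, lst_getD x hsm, lst_getD x ht]
    have h1 := hxy (x ⟨s, hsm⟩) (x ⟨t, ht⟩)
    simp only [Perm.mul_apply, Perm.inv_def, Equiv.symm_apply_apply] at h1
    have e1 : (⟨val y s, hys⟩ : Fin m) = y ⟨s, hsm⟩ := Fin.ext (val_eq y hsm)
    have e2 : (⟨val y t, hyt⟩ : Fin m) = y ⟨t, ht⟩ := Fin.ext (val_eq y ht)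
    rw [e1, e2]
    exact h1

theorem rig_val {m : ℕ} (x y : Perm (Fin m)) (hy : y ∈ Q0 m) (hxy : x * y * x⁻¹ ∈ Q0 m) :
    ∀ f t : ℕ, t + f = m → rig m (lst m x) f (im y t) = true → ∀ s < m, val y s = s := by
  intro f
  induction f with
  | zero =>
    intro t ht h s hs
    rw [add_zero] at ht
    subst ht
    simp only [rig, beq_iff_eq, im, List.reverse_inj] at h
    have h2 := congrArg (fun l : List ℕ => l.getD s 0) h
    simpa [List.getD, hs] using h2
  | succ f ih =>
    intro t ht h s hs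
    have htm : t < m := by omega
    simp only [rig, List.all_eq_true, List.mem_range, Bool.or_eq_true, Bool.not_eq_true'] at h
    rcases h (val y t) (val_lt y htm) with h1 | h1
    · rw [okk_val x y hy hxy htm] at h1
      exact absurd h1 (by simp)
    · rw [← im_succ] at h1
      exact ih (t + 1) (by omega) h1 s hs

theorem pRIG : StRIG := by
  intro m x h
  rintro ⟨y, hy, hne, hxy⟩
  apply hne
  have h0 : rig m (lst m x) m (im y 0) = true := by
    simpa [im] using h
  have h1 := rig_val x y hy hxy m 0 (by omega) h0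
  ext i
  have := h1 i.1 i.2
  rw [val_eq y i.2] at this
  simpa using this

end Pool.Agent.Helper89.SA
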